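import Pool.Agent.Q170.FP.Fin

/-!
Places of a number field which are near to a hypersurface (helper file).
-/

set_option autoImplicit false
set_option linter.unusedSectionVars false

open UpperHalfPlane H294ZP IsDedekindDomain NumberField

namespace Pool.Agent.Q170.FPM

open Pool.Agent.Y92.ZX
open Pool.Agent.Q170.FP
open Pool.Agent.Q170.ZP.Count (box mem_box bezout)
open MvPolynomial (eval eval₂ eval₂Hom degreeOf rename)

/-- factors of a unit -/
theorem val_one {L : Type} [Field L] [NumberField L] (v : HeightOneSpectrum (𝓞 L)) {ι : Type}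
    [Fintype ι] (h : ι → L) (h1 : ∀ i, v.valuation L (h i) ≤ 1)
    (h2 : v.valuation L (∏ i, h i) = 1) (i : ι) : v.valuation L (h i) = 1 := by
  classical
  refine le_antisymm (h1 i) ?_
  rw [← h2, ← Finset.mul_prod_erase Finset.univ h (Finset.mem_univ i), map_mul]
  refine mul_le_of_le_one_right' ?_
  rw [map_prod]
  exact Finset.prod_le_one' fun i _ => h1 i

/-- The norm of a polynomial over a number field, up to a constant factor. -/
structure NormData (L : Type) [Field L] [NumberField L] {r : ℕ} (P : MvPolynomial (Fin r) L) where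
  b : 𝓞 L
  PO : MvPolynomial (Fin r) (𝓞 L)
  N : MvPolynomial (Fin r) ℤ
  hb : b ≠ 0
  hPO : MvPolynomial.map (algebraMap (𝓞 L) L) PO = MvPolynomial.C (algebraMap (𝓞 L) L b) * P
  hN1 : ∀ t : Fin r → ℤ, eval t N = Algebra.norm ℤ (eval (fun i => (t i : 𝓞 L)) PO)
  hN2 : MvPolynomial.map (Int.castRingHom ℂ) N =
    ∏ σ : L →ₐ[ℚ] ℂ, MvPolynomial.map (σ.toRingHom.comp (algebraMap (𝓞 L) L)) PO

theorem exists_normData (L : Type) [Field L] [NumberField L] {r : ℕ}
    (P : MvPolynomial (Fin r) L) : Nonempty (NormData L P) := by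
  obtain ⟨b₁, PO, hb₁, hPO⟩ := clear L P
  obtain ⟨N, hN1, hN2⟩ := exists_norm L PO
  exact ⟨⟨b₁, PO, N, hb₁, hPO, hN1, hN2⟩⟩

theorem cast_inj (L : Type) [Field L] [NumberField L] {x : 𝓞 L} (hx : x ≠ 0) :
    algebraMap (𝓞 L) L x ≠ 0 := by
  rw [Ne, FaithfulSMul.algebraMap_eq_zero_iff]
  exact hx

theorem NormData.PO_ne {L : Type} [Field L] [NumberField L] {r : ℕ} {P : MvPolynomial (Fin r) L}
    (𝒩 : NormData L P) (hP : P ≠ 0) : 𝒩.PO ≠ 0 := by
  intro h
  have h1 := 𝒩.hPO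
  rw [h, map_zero] at h1
  rcases mul_eq_zero.1 h1.symm with h | h
  · exact cast_inj L 𝒩.hb ((MvPolynomial.C_eq_zero).1 h)
  · exact hP h

theorem NormData.deg {L : Type} [Field L] [NumberField L] {r : ℕ} {P : MvPolynomial (Fin r) L}
    (𝒩 : NormData L P) (hP : P ≠ 0) (j : Fin r) (hj : 0 < degreeOf j P) :
    0 < degreeOf j 𝒩.N := by
  refine norm_deg L 𝒩.PO (𝒩.PO_ne hP) j ?_ 𝒩.N 𝒩.hN2
  rw [← degreeOf_inj _ (FaithfulSMul.algebraMap_injective (𝓞 L) L) 𝒩.PO j, 𝒩.hPO]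
  have h2 : degreeOf j (MvPolynomial.C (algebraMap (𝓞 L) L 𝒩.b) * P) = degreeOf j P := by
    rw [MvPolynomial.degreeOf_eq_sup, MvPolynomial.degreeOf_eq_sup]
    congr 1
    ext m
    rw [MvPolynomial.mem_support_iff, MvPolynomial.mem_support_iff, MvPolynomial.coeff_C_mul,
      Ne, mul_eq_zero, not_or]
    exact ⟨fun h => h.2, fun h => ⟨cast_inj L 𝒩.hb, h⟩⟩
  rw [h2]
  exact hj

theorem eval_cast {L : Type} [Field L] [NumberField L] {τ : Type} (q : MvPolynomial τ (𝓞 L))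
    (t' : τ → ℤ) : algebraMap (𝓞 L) L (eval (fun i => (t' i : 𝓞 L)) q) =
      eval (fun i => (t' i : L)) (MvPolynomial.map (algebraMap (𝓞 L) L) q) := by
  rw [MvPolynomial.eval_map]
  have h := MvPolynomial.eval₂_comp_left (algebraMap (𝓞 L) L) (RingHom.id (𝓞 L))
    (fun i => (t' i : 𝓞 L)) q
  rw [RingHom.comp_id] at h
  refine h.trans ?_
  congr 1

theorem NormData.eval_PO {L : Type} [Field L] [NumberField L] {r : ℕ}
    {P : MvPolynomial (Fin r) L} (𝒩 : NormData L P) (t : Fin r → ℤ) :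
    algebraMap (𝓞 L) L (eval (fun i => (t i : 𝓞 L)) 𝒩.PO) =
      algebraMap (𝓞 L) L 𝒩.b * eval (fun i => (t i : L)) P := by
  rw [eval_cast, 𝒩.hPO, map_mul, MvPolynomial.eval_C]

theorem NormData.eval_ne {L : Type} [Field L] [NumberField L] {r : ℕ}
    {P : MvPolynomial (Fin r) L} (𝒩 : NormData L P) (t : Fin r → ℤ) (h : eval t 𝒩.N ≠ 0) :
    eval (fun i => (t i : L)) P ≠ 0 := by
  intro h0
  apply h
  rw [𝒩.hN1]
  have h1 := 𝒩.eval_PO t
  rw [h0, mul_zero, FaithfulSMul.algebraMap_eq_zero_iff] at h1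
  rw [h1, Algebra.norm_zero]

/-- Places near to the hypersurface `P = 0`. -/
theorem exists_places (L : Type) [Field L] [NumberField L] {r : ℕ} (P : MvPolynomial (Fin r) L)
    (𝒩 : NormData L P) {ι : Type} [Fintype ι] (E : ι → MvPolynomial (Fin r) L) (j : Fin r)
    (hrel : IsRelPrime P (∏ i, E i)) (X : Finset L) (Q₁ : ℕ) :
    ∃ (c : MvPolynomial {i : Fin r // i ≠ j} ℤ) (Q : ℕ), c ≠ 0 ∧
      ∀ (t : Fin r → ℤ) (p : ℕ), p.Prime → Q < p → (p : ℤ) ∣ eval t 𝒩.N →
        ¬ (p : ℤ) ∣ eval (fun i : {i : Fin r // i ≠ j} => t i) c →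
        ∃ v : HeightOneSpectrum (𝓞 L), Q₁ < p ∧ (p : 𝓞 L) ∈ v.asIdeal ∧
          (p : 𝓞 L) ∉ v.asIdeal ^ 2 ∧ (∀ x ∈ X, v.valuation L x ≤ 1) ∧
          v.valuation L (eval (fun i => (t i : L)) P) < 1 ∧
          ∀ i, v.valuation L (eval (fun i => (t i : L)) (E i)) = 1 := by
  classical
  -- the Bezout relation
  have hfg : IsRelPrime (sepR L j P) (sepR L j (∏ i, E i)) := by
    intro d hdf hdg
    have h1 : (sepR L j).symm d ∣ P := by
      have := map_dvd (sepR L j).symm hdf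
      rwa [AlgEquiv.symm_apply_apply] at this
    have h2 : (sepR L j).symm d ∣ ∏ i, E i := by
      have := map_dvd (sepR L j).symm hdg
      rwa [AlgEquiv.symm_apply_apply] at this
    have h3 := (hrel h1 h2).map (sepR L j)
    rwa [AlgEquiv.apply_symm_apply] at h3
  obtain ⟨c, A₀, B₀, hc, hAB₀⟩ := bezout (sepR L j P) (sepR L j (∏ i, E i)) hfg
  obtain ⟨A, hA⟩ : ∃ A, A = (sepR L j).symm A₀ := ⟨_, rfl⟩
  obtain ⟨B, hB⟩ : ∃ B, B = (sepR L j).symm B₀ := ⟨_, rfl⟩
  have hAB : A * P + B * (∏ i, E i) = rename Subtype.val c := by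
    have h1 := congrArg (sepR L j).symm hAB₀
    rw [map_add, map_mul, map_mul, AlgEquiv.symm_apply_apply, AlgEquiv.symm_apply_apply,
      sepR_symm_C] at h1
    rw [hA, hB]
    exact h1
  obtain ⟨b₂, cO, hb₂, hcO⟩ := clear L c
  obtain ⟨Nc, hNc1, hNc2⟩ := exists_norm L cO
  have hcO0 : cO ≠ 0 := by
    rintro rfl
    rw [map_zero] at hcO
    rcases mul_eq_zero.1 hcO.symm with h | h
    · exact cast_inj L hb₂ ((MvPolynomial.C_eq_zero).1 h)
    · exact hc h
  -- the finitely many places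
  obtain ⟨Y, hY⟩ : ∃ Y : Finset L, Y = X ∪ P.coeffs ∪ A.coeffs ∪ B.coeffs ∪
    (Finset.univ.biUnion fun i => (E i).coeffs) ∪ {(algebraMap (𝓞 L) L 𝒩.b)⁻¹} := ⟨_, rfl⟩
  let S : Set (HeightOneSpectrum (𝓞 L)) :=
    {v | ∃ p : ℕ, p.Prime ∧ (p : 𝓞 L) ∈ v.asIdeal ∧ (p ≤ Q₁ ∨ (p : 𝓞 L) ∈ v.asIdeal ^ 2)} ∪
    {v | ∃ x ∈ Y, 1 < v.valuation L x}
  have hSfin : S.Finite := (ram_fin L Q₁).union (supp_fin_finset L _)
  obtain ⟨D, hD⟩ := exists_bound L S hSfin
  refine ⟨Nc, D, norm_ne L cO hcO0 Nc hNc2, ?_⟩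
  intro t p hp hDp hpN hpc
  rw [𝒩.hN1] at hpN
  rw [hNc1] at hpc
  obtain ⟨v, hpv, hPv⟩ := place_of_norm L _ p hp hpN
  have hvS : v ∉ S := by
    intro hvS
    refine hD v hvS fun q hq hqv => ?_
    -- the residue characteristic is unique
    have hqp : q = p := by
      by_contra hne
      have hcop : IsCoprime (q : ℤ) (p : ℤ) :=
        Nat.isCoprime_iff_coprime.2 ((Nat.coprime_primes hq hp).2 hne)
      obtain ⟨x, y, hxy⟩ := hcop
      apply v.isPrime.ne_top
      rw [Ideal.eq_top_iff_one]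
      have h4 := congrArg (Int.castRingHom (𝓞 L)) hxy
      rw [map_add, map_mul, map_mul, map_one, map_natCast, map_natCast] at h4
      rw [← h4]
      exact Ideal.add_mem _ (Ideal.mul_mem_left _ _ hqv) (Ideal.mul_mem_left _ _ hpv)
    omega
  have hQp : Q₁ < p := by
    by_contra h
    exact hvS (Or.inl ⟨p, hp, hpv, Or.inl (not_lt.1 h)⟩)
  have hpv2 : (p : 𝓞 L) ∉ v.asIdeal ^ 2 := fun h => hvS (Or.inl ⟨p, hp, hpv, Or.inr h⟩)
  have hint : ∀ x ∈ Y, v.valuation L x ≤ 1 := by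
    intro x hx
    by_contra hcon
    exact hvS (Or.inr ⟨x, hx, not_le.1 hcon⟩)
  let s : Fin r → L := fun l => (t l : L)
  have hsv : ∀ l, v.valuation L (s l) ≤ 1 := by
    intro l
    have h1 : s l = algebraMap (𝓞 L) L (t l : 𝓞 L) := by simp [s]
    rw [h1]
    exact v.valuation_le_one _
  have hvals : ∀ q : MvPolynomial (Fin r) L, (∀ x ∈ q.coeffs, x ∈ Y) →
      v.valuation L (eval s q) ≤ 1 := fun q hq => val_eval_le v q (fun x hx => hint x (hq x hx)) hsv
  have hvA := hvals A fun x hx => by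
    rw [hY]
    simp only [Finset.mem_union]
    tauto
  have hvB := hvals B fun x hx => by
    rw [hY]
    simp only [Finset.mem_union]
    tauto
  have hvE : ∀ i, v.valuation L (eval s (E i)) ≤ 1 := fun i => hvals (E i) fun x hx => by
    rw [hY]
    simp only [Finset.mem_union, Finset.mem_biUnion]
    exact Or.inl (Or.inr ⟨i, Finset.mem_univ i, hx⟩)
  have hb₁v : v.valuation L (algebraMap (𝓞 L) L 𝒩.b)⁻¹ ≤ 1 := hint _ (by
    rw [hY]
    simp only [Finset.mem_union, Finset.mem_singleton]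
    tauto)
  have hvP : v.valuation L (eval s P) < 1 := by
    have h2 : v.valuation L (algebraMap (𝓞 L) L (eval (fun i => (t i : 𝓞 L)) 𝒩.PO)) < 1 :=
      (v.valuation_lt_one_iff_mem _).2 hPv
    have h3 : eval s P = (algebraMap (𝓞 L) L 𝒩.b)⁻¹ *
        algebraMap (𝓞 L) L (eval (fun i => (t i : 𝓞 L)) 𝒩.PO) := by
      rw [𝒩.eval_PO, inv_mul_cancel_left₀ (cast_inj L 𝒩.hb)]
    rw [h3, map_mul]
    exact (mul_le_of_le_one_left' hb₁v).trans_lt h2
  -- the values of the `E i`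
  have hz1 : v.valuation L (∏ i, eval s (E i)) = 1 := by
    refine le_antisymm ?_ ?_
    · rw [map_prod]
      exact Finset.prod_le_one' fun i _ => hvE i
    by_contra hcon
    rw [not_le] at hcon
    apply hpc
    refine dvd_norm L _ p hp v hpv ?_
    rw [← v.valuation_lt_one_iff_mem (K := L)]
    change v.valuation L (algebraMap (𝓞 L) L
      (eval (fun i : {i : Fin r // i ≠ j} => ((t i : ℤ) : 𝓞 L)) cO)) < 1
    rw [eval_cast, hcO, map_mul, MvPolynomial.eval_C, map_mul]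
    refine lt_of_le_of_lt (mul_le_of_le_one_left' (v.valuation_le_one _)) ?_
    have h1 : eval (fun i : {i : Fin r // i ≠ j} => ((t i : ℤ) : L)) c =
        eval s A * eval s P + eval s B * ∏ i, eval s (E i) := by
      have h2 := congrArg (eval s) hAB
      rw [map_add, map_mul, map_mul, map_prod, MvPolynomial.eval_rename] at h2
      exact h2.symm
    rw [h1]
    refine Valuation.map_add_lt _ ?_ ?_
    · rw [map_mul]
      exact (mul_le_of_le_one_left' hvA).trans_lt hvP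
    · rw [map_mul]
      exact (mul_le_of_le_one_left' hvB).trans_lt hcon
  exact ⟨v, hQp, hpv, hpv2, fun x hx => hint x (by
    rw [hY]
    simp only [Finset.mem_union]
    tauto), hvP, fun i => val_one v _ hvE hz1 i⟩

end Pool.Agent.Q170.FPM
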