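import Pool.Agent.Q170.FPM.Loc
import Pool.Agent.Q170.FPM.Places

/-!
Families of curves in `Y(1)^n × G_m^k` with several parameters which degenerate along hypersurfaces
(helper file).
-/

set_option autoImplicit false
set_option linter.unusedSectionVars false

open UpperHalfPlane H294ZP IsDedekindDomain NumberField

namespace Pool.Agent.Q170.FPM

open Pool.Agent.Y226 Pool.Agent.Y226.ZG Pool.Agent.Y226.ZM Pool.Agent.Y226.ZU Pool.Agent.Y92.ZX
open Pool.Agent.Q170.FP
open Pool.Agent.Q170.ZP.Count (box mem_box bezout)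
open MvPolynomial (eval eval₂ eval₂Hom degreeOf rename)

/-- units of polynomial rings over subfields -/
theorem unit_descent {L M τ : Type} [Field L] [Field M] (f : L →+* M) (d : MvPolynomial τ L)
    (h : IsUnit (MvPolynomial.map f d)) : IsUnit d := by
  rw [MvPolynomial.isUnit_iff_totalDegree_of_isReduced] at h ⊢
  obtain ⟨h1, h2⟩ := h
  refine ⟨?_, ?_⟩
  · rw [MvPolynomial.coeff_map] at h1
    rw [isUnit_iff_ne_zero]
    intro h0
    rw [h0, map_zero] at h1
    exact not_isUnit_zero h1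
  · rw [MvPolynomial.totalDegree_eq_zero_iff] at h2 ⊢
    intro m hm x
    exact h2 m (by rwa [MvPolynomial.support_map_of_injective _ f.injective]) x

/-- relatively prime polynomials over subfields -/
theorem relPrime_descent {L M τ : Type} [Field L] [Field M] (f : L →+* M)
    (P E : MvPolynomial τ L) (h : IsRelPrime (MvPolynomial.map f P) (MvPolynomial.map f E)) :
    IsRelPrime P E := fun _ h1 h2 =>
  unit_descent f _ (h (map_dvd _ h1) (map_dvd _ h2))

/-- monotony in the ring of constants -/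
theorem Concl.mono {n k : ℕ} {Γ Γ' : Set ℂ} (h : Γ ⊆ Γ') {S : Set (Fin (n + k) → ℂ)}
    (hS : Concl Γ' S) : Concl Γ S := by
  refine ⟨hS.1.subset ?_, fun r Z M η hη hr => (hS.2 r (svMono h Z) M η hη hr).subset ?_⟩
  · rintro x ⟨hx, h0, r, Z, M, η, hη, hr, hZ, hM⟩
    exact ⟨hx, h0, r, svMono h Z, M, η, hη, hr, hZ, hM⟩
  · rintro x ⟨hx, h0, hZ, hM⟩
    exact ⟨hx, h0, hZ, hM⟩

section member

variable {n k K r : ℕ} {κ : Type}

/-- the scaling factors of the modular coordinates -/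
noncomputable def lamC (f g : Fin (n + k) → MvPolynomial (Fin r) QA)
    (P : Fin K → MvPolynomial (Fin r) QA) (w : Fin K → Fin n → ℕ) (t : Fin r → ℂ) (j : Fin n) : ℂ :=
  eval₂ rA t (f (Fin.castAdd k j)) /
    ((∏ a, eval₂ rA t (P a) ^ w a j) * eval₂ rA t (g (Fin.castAdd k j)))

/-- the scaling factors of the multiplicative coordinates -/
noncomputable def nuC (f g : Fin (n + k) → MvPolynomial (Fin r) QA)
    (P : Fin K → MvPolynomial (Fin r) QA) (c : Fin K → Fin k → ℤ) (t : Fin r → ℂ) (l : Fin k) : ℂ :=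
  eval₂ rA t (f (Fin.natAdd n l)) / eval₂ rA t (g (Fin.natAdd n l)) *
    ∏ a, eval₂ rA t (P a) ^ c a l

/-- the member at `t` of the family -/
def memM (F : κ → MvPolynomial (Fin (n + k) × Bool) (MvPolynomial (Fin r) QA))
    (f g : Fin (n + k) → MvPolynomial (Fin r) QA) (P : Fin K → MvPolynomial (Fin r) QA)
    (w : Fin K → Fin n → ℕ) (c : Fin K → Fin k → ℤ) (t : Fin r → ℂ) : Set (Fin (n + k) → ℂ) :=
  scl (VS F t) (lamC f g P w t) (nuC f g P c t)

end member

/-- The local criterion. -/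
theorem critM (n k r K : ℕ) (hK3 : 3 ≤ K) (hK : k * (k - 1) ≤ K) (κ : Type) [Finite κ] (d₀ : ℕ)
    (F : κ → MvPolynomial (Fin (n + k) × Bool) (MvPolynomial (Fin r) QA))
    (t₀ : Fin K → Fin r → ℂ) (P : Fin K → MvPolynomial (Fin r) QA) (hP0 : ∀ a, P a ≠ 0)
    (hP : ∀ a f, eval₂Hom rA (t₀ a) f = 0 → P a ∣ f)
    (hF : ∀ a, GM d₀ (eval₂Hom rA (t₀ a)) F)
    (f g : Fin (n + k) → MvPolynomial (Fin r) QA)
    (w : Fin K → Fin n → ℕ) (hw : ∀ a i, 0 < w a i) (c : Fin K → Fin k → ℤ) (hc : Indep c) :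
    ∃ (Q : ℕ) (E : Fin K → MvPolynomial (Fin r) QA), (∀ a, eval₂Hom rA (t₀ a) (E a) ≠ 0) ∧
    ∀ (L : Type) [Field L] [NumberField L] (σ : L →+* ℂ) (v : Fin K → HeightOneSpectrum (𝓞 L))
    (p : Fin K → ℕ), Function.Injective p → (∀ a, (p a).Prime ∧ Q < p a ∧
      (p a : 𝓞 L) ∈ (v a).asIdeal ∧ (p a : 𝓞 L) ∉ (v a).asIdeal ^ 2) →
    ∀ s : Fin r → L, (∀ a l, (v a).valuation L (s l) ≤ 1) →
    ∀ (A B : Fin K → L) (u : Fin (n + k) → L),
    (∀ a, σ (A a) = eval₂ rA (fun l => σ (s l)) (P a) ∧ A a ≠ 0 ∧ (v a).valuation L (A a) < 1 ∧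
      ∀ b, b ≠ a → (v b).valuation L (A a) = 1) →
    (∀ a, σ (B a) = eval₂ rA (fun l => σ (s l)) (E a) ∧ (v a).valuation L (B a) = 1) →
    (∀ i, σ (u i) = eval₂ rA (fun l => σ (s l)) (f i) / eval₂ rA (fun l => σ (s l)) (g i) ∧
      ∀ a, (v a).valuation L (u i) = 1) →
    Concl (intAll σ v) (memM F f g P w c (fun l => σ (s l))) := by
  classical
  -- the weights
  obtain ⟨W, hWw, hWc⟩ : ∃ W : ℕ, (∀ a i, w a i ≤ W) ∧ ∀ a l, |c a l| ≤ W := by
    refine ⟨∑ a, ∑ i, w a i + ∑ a, ∑ l, (c a l).natAbs, fun a i => ?_, fun a l => ?_⟩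
    · have h1 := Finset.single_le_sum (f := w a) (fun _ _ => Nat.zero_le _) (Finset.mem_univ i)
      have h2 := Finset.single_le_sum (f := fun a => ∑ i, w a i) (fun _ _ => Nat.zero_le _)
        (Finset.mem_univ a)
      omega
    · have h1 := Finset.single_le_sum (f := fun l => (c a l).natAbs) (fun _ _ => Nat.zero_le _)
        (Finset.mem_univ l)
      have h2 := Finset.single_le_sum (f := fun a => ∑ l, (c a l).natAbs)
        (fun _ _ => Nat.zero_le _) (Finset.mem_univ a)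
      rw [Int.abs_eq_natAbs]
      exact_mod_cast (h1.trans h2).trans (Nat.le_add_left _ _)
  obtain ⟨W', hW, hW1, hW'⟩ := exists_W K k W
  choose Q₁ E₁ hE₁ hloc using fun a => gen_pk (n + k) r W' κ d₀ F (t₀ a) (P a) (hP0 a)
    (hP a) (hF a)
  refine ⟨∑ a, Q₁ a, E₁, hE₁, ?_⟩
  intro L _ _ σ v p hpinj hp s hsv A B u hA hB hu
  have hQle : ∀ a, Q₁ a ≤ ∑ a, Q₁ a := fun a =>
    Finset.single_le_sum (f := Q₁) (fun _ _ => Nat.zero_le _) (Finset.mem_univ a)
  obtain ⟨σ', hσ'⟩ := exists_sig σ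
  choose e he hve using fun a => exists_exp (v a) (hA a).2.1 (hA a).2.2.1
  have hvb : ∀ a b, b ≠ a → (v a).valuation L (A b) = 1 := fun a b hba =>
    (hA b).2.2.2 a (Ne.symm hba)
  let lam : Fin n → L := fun i => u (Fin.castAdd k i) / ∏ a, A a ^ w a i
  let nu : Fin k → L := fun l => u (Fin.natAdd n l) * ∏ a, A a ^ c a l
  have hprodw : ∀ a i, (v a).valuation L (∏ b, A b ^ w b i) =
      WithZero.exp (-((e a * w a i : ℕ) : ℤ)) := by
    intro a i
    rw [map_prod, Finset.prod_eq_single a]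
    · rw [map_pow, hve, ← WithZero.exp_nsmul]
      congr 1
      push_cast
      rw [nsmul_eq_mul]
      ring
    · intro b _ hba
      rw [map_pow, hvb a b hba, one_pow]
    · intro h
      exact absurd (Finset.mem_univ a) h
  have hprodc : ∀ a l, (v a).valuation L (∏ b, A b ^ c b l) =
      WithZero.exp (-((e a : ℤ) * c a l)) := by
    intro a l
    rw [map_prod, Finset.prod_eq_single a]
    · rw [map_zpow₀, hve, ← WithZero.exp_zsmul]
      congr 1
      rw [zsmul_eq_mul]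
      push_cast
      ring
    · intro b _ hba
      rw [map_zpow₀, hvb a b hba, one_zpow]
    · intro h
      exact absurd (Finset.mem_univ a) h
  have hSC : ∀ a, SC (v a) W lam nu (e a) (e a) (w a) (c a) := by
    intro a
    refine ⟨he a, he a, fun i => ⟨hw a i, hWw a i, ?_⟩, fun l => ⟨hWc a l, ?_⟩⟩
    · simp only [lam]
      rw [map_div₀, (hu _).2, hprodw, one_div, ← WithZero.exp_neg, neg_neg]
      congr 2
      rw [mul_comm]
    · simp only [nu]
      rw [map_mul, (hu _).2, one_mul, hprodc]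
  have hpk := fun a => by
    haveI : Fact (p a).Prime := ⟨(hp a).1⟩
    obtain ⟨h1, h2⟩ := lam_ext (n := n) (k := k) (hp a).2.2.1 (hp a).2.2.2 hW hW1 (hSC a)
    exact hloc a L σ σ' hσ' (v a) (p a) (hp a).1 ((hQle a).trans_lt (hp a).2.1) (hp a).2.2.1
      (hp a).2.2.2 s (hsv a) ⟨A a, (hA a).2.2.1, (hA a).1⟩
      ⟨B a, (hB a).2, (hB a).1⟩ _ (e a) _ (he a) h1 _ _ h2
      (intAll σ v) (fun z hz => by
        obtain ⟨x, hx, rfl⟩ := hz
        exact ⟨x, hx a, rfl⟩)
  have h1 := concl_of mixx_all hK3 hK σ hσ' (hpk ⟨0, by omega⟩).2 hc hW' (fun a => (hp a).1)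
    hpinj hSC (fun a => (hpk a).1)
  have hrσ : rA.comp (MvPolynomial.eval fun l => σ' (s l)) =
      MvPolynomial.eval₂Hom rA (fun l => σ (s l)) := by
    refine MvPolynomial.ringHom_ext ?_ ?_
    · intro r
      simp
    · intro l
      simp [hσ']
  have hVF : VF (fun t => MvPolynomial.map (MvPolynomial.eval fun l => σ' (s l)) (F t)) =
      VS F (fun l => σ (s l)) := by
    ext y
    show (∀ t, _ = _) ↔ ∀ t, _ = _
    refine forall_congr' fun t => ?_
    rw [MvPolynomial.eval₂_map, hrσ]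
  rw [hVF] at h1
  have hlam : (fun i => σ (lam i)) = lamC f g P w (fun l => σ (s l)) := by
    funext i
    simp only [lam, lamC]
    rw [map_div₀, map_prod, (hu _).1, div_div, mul_comm (eval₂ rA _ (g _))]
    congr 2
    refine Finset.prod_congr rfl fun a _ => ?_
    rw [map_pow, (hA a).1]
  have hnu : (fun l => σ (nu l)) = nuC f g P c (fun l => σ (s l)) := by
    funext l
    simp only [nu, nuC]
    rw [map_mul, map_prod, (hu _).1]
    congr 1
    refine Finset.prod_congr rfl fun a _ => ?_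
    rw [map_zpow₀, (hA a).1]
  rw [hlam, hnu] at h1
  exact h1

/-- Integral members. -/
theorem integralM (n k r K : ℕ) (hK3 : 3 ≤ K) (hK : k * (k - 1) ≤ K) (κ : Type) [Finite κ] (d₀ : ℕ)
    (F : κ → MvPolynomial (Fin (n + k) × Bool) (MvPolynomial (Fin r) QA))
    (t₀ : Fin K → Fin r → ℂ) (P : Fin K → MvPolynomial (Fin r) QA) (hP0 : ∀ a, P a ≠ 0)
    (hP : ∀ a f, eval₂Hom rA (t₀ a) f = 0 ↔ P a ∣ f)
    (hF : ∀ a, GM d₀ (eval₂Hom rA (t₀ a)) F)
    (hconj : ∀ a b, a ≠ b → ∀ τ : QA →+* ℂ, eval₂ τ (t₀ a) (P b) ≠ 0)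
    (f g : Fin (n + k) → MvPolynomial (Fin r) QA)
    (hf : ∀ a i, eval₂Hom rA (t₀ a) (f i) ≠ 0) (hg : ∀ a i, eval₂Hom rA (t₀ a) (g i) ≠ 0)
    (w : Fin K → Fin n → ℕ) (hw : ∀ a i, 0 < w a i) (c : Fin K → Fin k → ℤ) (hc : Indep c)
    (Γ : Finset ℂ) (hΓ : ∀ γ ∈ Γ, IsAlgebraic ℚ γ) :
    ∃ (j : Fin K → Fin r) (N : Fin K → MvPolynomial (Fin r) ℤ)
      (c' : ∀ a, MvPolynomial {i : Fin r // i ≠ j a} ℤ) (Q : ℕ),
      (∀ a, 0 < degreeOf (j a) (N a) ∧ c' a ≠ 0) ∧ ∀ t : Fin r → ℤ,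
        (∀ a, eval t (N a) ≠ 0 ∧ ∃ p : ℕ, p.Prime ∧ Q < p ∧ (p : ℤ) ∣ eval t (N a) ∧
          ¬ (p : ℤ) ∣ eval (fun i : {i : Fin r // i ≠ j a} => t i) (c' a)) →
        Concl (Γ : Set ℂ) (memM F f g P w c (fun l => (t l : ℂ))) := by
  classical
  obtain ⟨Q₁, E₁, hE₁, hcrit⟩ := critM n k r K hK3 hK κ d₀ F t₀ P hP0 (fun a f => (hP a f).1) hF
    f g w hw c hc
  -- the number field
  have hex : ∀ z : ℂ, ∃ c : QA, IsAlgebraic ℚ z → rA c = z := by
    intro z
    by_cases h : IsAlgebraic ℚ z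
    · exact ⟨⟨z, mem_QA.2 h⟩, fun _ => rfl⟩
    · exact ⟨0, fun h' => absurd h' h⟩
  choose cc hcc using hex
  obtain ⟨T, hT⟩ : ∃ T : Finset QA, T = (Finset.univ.biUnion fun a => (P a).coeffs ∪
    (E₁ a).coeffs) ∪ Γ.image cc ∪
    (Finset.univ.biUnion fun i => (f i).coeffs ∪ (g i).coeffs) := ⟨_, rfl⟩
  obtain ⟨L, hL⟩ : ∃ L : IntermediateField ℚ QA, L = IntermediateField.adjoin ℚ (T : Set QA) :=
    ⟨_, rfl⟩
  have hfin : FiniteDimensional ℚ L := by
    rw [hL]
    refine IntermediateField.finiteDimensional_adjoin fun x _ => ?_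
    exact ((algebraicClosure.isAlgebraic ℚ ℂ).isAlgebraic x).isIntegral
  have hnf : NumberField L := ⟨⟩
  have hTL : ∀ x ∈ T, x ∈ L := fun x hx => by
    rw [hL]
    exact IntermediateField.subset_adjoin _ _ hx
  choose P' hP' using fun a => lift_field L (P a) fun x hx => hTL x (by
    rw [hT]
    simp only [Finset.mem_union, Finset.mem_biUnion]
    exact Or.inl (Or.inl ⟨a, Finset.mem_univ a, Or.inl hx⟩))
  choose E₁' hE₁' using fun a => lift_field L (E₁ a) fun x hx => hTL x (by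
    rw [hT]
    simp only [Finset.mem_union, Finset.mem_biUnion]
    exact Or.inl (Or.inl ⟨a, Finset.mem_univ a, Or.inr hx⟩))
  choose f' hf' using fun i => lift_field L (f i) fun x hx => hTL x (by
    rw [hT]
    simp only [Finset.mem_union, Finset.mem_biUnion]
    exact Or.inr ⟨i, Finset.mem_univ i, Or.inl hx⟩)
  choose g' hg' using fun i => lift_field L (g i) fun x hx => hTL x (by
    rw [hT]
    simp only [Finset.mem_union, Finset.mem_biUnion]
    exact Or.inr ⟨i, Finset.mem_univ i, Or.inr hx⟩)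
  have hΓL : ∀ γ ∈ Γ, cc γ ∈ L := fun γ hγ => hTL _ (by
    rw [hT]
    simp only [Finset.mem_union, Finset.mem_image]
    exact Or.inl (Or.inr ⟨γ, hγ, rfl⟩))
  have hP'0 : ∀ a, P' a ≠ 0 := by
    intro a h0
    have h1 := hP' a
    rw [h0, map_zero] at h1
    exact hP0 a h1.symm
  -- the norms
  have 𝒩 : ∀ a, NormData L (P' a) := fun a => (exists_normData L (P' a)).some
  have hNne : ∀ a b, a ≠ b → eval₂ (Int.castRingHom ℂ) (t₀ a) (𝒩 b).N ≠ 0 := by
    intro a b hab
    rw [← MvPolynomial.eval_map, (𝒩 b).hN2, map_prod]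
    refine Finset.prod_ne_zero_iff.2 fun σ _ => ?_
    -- an extension of the embedding
    obtain ⟨τ, hτ⟩ : ∃ τ : QA →+* ℂ, τ.comp (algebraMap L QA) = σ.toRingHom := by
      let i1 : Algebra L ℂ := σ.toRingHom.toAlgebra
      have i2 : Algebra.IsAlgebraic L QA := Algebra.IsAlgebraic.tower_top (K := ℚ) L
      let τ : QA →ₐ[L] ℂ := IsAlgClosed.lift
      exact ⟨τ.toRingHom, RingHom.ext fun x => τ.commutes x⟩
    rw [MvPolynomial.eval_map]
    have h1 : eval₂ (σ.toRingHom.comp (algebraMap (𝓞 L) L)) (t₀ a) (𝒩 b).PO =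
        eval₂ σ.toRingHom (t₀ a) (MvPolynomial.C (algebraMap (𝓞 L) L (𝒩 b).b) * P' b) := by
      rw [← (𝒩 b).hPO, MvPolynomial.eval₂_map]
    rw [h1, MvPolynomial.eval₂_mul, MvPolynomial.eval₂_C]
    refine mul_ne_zero ?_ ?_
    · exact (map_ne_zero_iff _ σ.toRingHom.injective).2 (cast_inj L (𝒩 b).hb)
    · have h2 : eval₂ σ.toRingHom (t₀ a) (P' b) = eval₂ τ (t₀ a) (P b) := by
        rw [← hP' b, MvPolynomial.eval₂_map, hτ]
      rw [h2]
      exact hconj a b hab τ
  -- the factors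
  let fac : ∀ _ : Fin K, Option (Fin (n + k) ⊕ (Fin (n + k) ⊕ (Fin K ⊕ Fin K))) →
      MvPolynomial (Fin r) L := fun a i => Option.elim i (E₁' a) (Sum.elim f' (Sum.elim g'
        (Sum.elim (fun b => if b = a then 1 else P' b)
          (fun b => if b = a then 1 else MvPolynomial.map (Int.castRingHom L) (𝒩 b).N))))
  have hfac : ∀ a i, eval₂Hom rA (t₀ a) (MvPolynomial.map (algebraMap L QA) (fac a i)) ≠ 0 := by
    intro a i
    rcases i with _ | i | i | b | b
    · simp only [fac, Option.elim_none]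
      rw [hE₁']
      exact hE₁ a
    · simp only [fac, Option.elim_some, Sum.elim_inl]
      rw [hf']
      exact hf a i
    · simp only [fac, Option.elim_some, Sum.elim_inl, Sum.elim_inr]
      rw [hg']
      exact hg a i
    · simp only [fac, Option.elim_some, Sum.elim_inl, Sum.elim_inr]
      split_ifs with hba
      · rw [map_one, map_one]
        exact one_ne_zero
      · rw [hP']
        exact hconj a b (Ne.symm hba) rA
    · simp only [fac, Option.elim_some, Sum.elim_inr]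
      split_ifs with hba
      · rw [map_one, map_one]
        exact one_ne_zero
      · rw [MvPolynomial.map_map, MvPolynomial.coe_eval₂Hom, MvPolynomial.eval₂_map]
        have h1 : rA.comp ((algebraMap L QA).comp (Int.castRingHom L)) = Int.castRingHom ℂ :=
          RingHom.ext_int _ _
        rw [h1]
        exact hNne a b (Ne.symm hba)
  have hPp : ∀ a, Prime (P a) := by
    intro a
    refine ⟨hP0 a, ?_, ?_⟩
    · intro hu
      have h1 := (hP a 1).2 hu.dvd
      rw [map_one] at h1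
      exact one_ne_zero h1
    · intro x y hxy
      rw [← hP, map_mul, mul_eq_zero] at hxy
      rwa [← hP, ← hP]
  have hrel : ∀ a, IsRelPrime (P' a) (∏ i, fac a i) := by
    intro a
    refine relPrime_descent (algebraMap L QA) _ _ ?_
    rw [hP', (hPp a).irreducible.isRelPrime_iff_not_dvd, ← hP, map_prod, map_prod]
    exact Finset.prod_ne_zero_iff.2 fun i _ => hfac a i
  -- the variables
  have hvar : ∀ a, ∃ j : Fin r, 0 < degreeOf j (P' a) := by
    intro a
    by_contra hcon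
    push Not at hcon
    have hcon' : ∀ i, degreeOf i (P a) ≤ 0 := fun i => by
      rw [← hP', degreeOf_inj _ (algebraMap L QA).injective]
      exact hcon i
    have h1 : ∀ u ∈ (P a).support, u = 0 := by
      intro u hu
      ext i
      have h2 := MvPolynomial.monomial_le_degreeOf i hu
      have h3 := hcon' i
      rw [Finsupp.zero_apply]
      omega
    have h2 : (P a).totalDegree = 0 := by
      rw [MvPolynomial.totalDegree_eq_zero_iff]
      intro u hu i
      rw [h1 u hu, Finsupp.zero_apply]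
    rw [MvPolynomial.totalDegree_eq_zero_iff_eq_C] at h2
    apply (hPp a).not_isUnit
    rw [h2]
    refine IsUnit.map MvPolynomial.C (isUnit_iff_ne_zero.2 fun h0 => hP0 a ?_)
    rw [h2, h0, map_zero]
  choose j hj using hvar
  let X : Finset L := Γ.attach.image (fun γ => (⟨cc γ.1, hΓL γ.1 γ.2⟩ : L))
  choose c' D hc' hplace using fun a => exists_places L (P' a) (𝒩 a) (fac a) (j a) (hrel a) X Q₁
  refine ⟨j, fun a => (𝒩 a).N, c', ∑ a, D a,
    fun a => ⟨(𝒩 a).deg (hP'0 a) (j a) (hj a), hc' a⟩, ?_⟩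
  intro t ht
  choose hN0 p hp hDp hpN hpc using ht
  have hDle : ∀ a, D a ≤ ∑ a, D a := fun a =>
    Finset.single_le_sum (f := D) (fun _ _ => Nat.zero_le _) (Finset.mem_univ a)
  choose v hQp hpv hpv2 hX hvP hvfac using fun a =>
    hplace a t (p a) (hp a) ((hDle a).trans_lt (hDp a)) (hpN a) (hpc a)
  obtain ⟨s, hs⟩ : ∃ s : Fin r → L, s = fun l => (t l : L) := ⟨_, rfl⟩
  have hsv : ∀ a l, (v a).valuation L (s l) ≤ 1 := by
    intro a l
    have h1 : s l = algebraMap (𝓞 L) L (t l : 𝓞 L) := by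
      rw [hs]
      simp
    rw [h1]
    exact (v a).valuation_le_one _
  rw [← hs] at hvP hvfac
  have hvE : ∀ a, (v a).valuation L (eval s (E₁' a)) = 1 := fun a => hvfac a none
  have hvf : ∀ a i, (v a).valuation L (eval s (f' i)) = 1 := fun a i => hvfac a (some (Sum.inl i))
  have hvg : ∀ a i, (v a).valuation L (eval s (g' i)) = 1 := fun a i =>
    hvfac a (some (Sum.inr (Sum.inl i)))
  have hvPb : ∀ a b, b ≠ a → (v a).valuation L (eval s (P' b)) = 1 := fun a b hba => by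
    have h1 := hvfac a (some (Sum.inr (Sum.inr (Sum.inl b))))
    simp only [fac, Option.elim_some, Sum.elim_inl, Sum.elim_inr, if_neg hba] at h1
    exact h1
  have hvNb : ∀ a b, b ≠ a → ¬ (p a : ℤ) ∣ eval t (𝒩 b).N := fun a b hba hdvd => by
    have h1 := hvfac a (some (Sum.inr (Sum.inr (Sum.inr b))))
    simp only [fac, Option.elim_some, Sum.elim_inr, if_neg hba] at h1
    have h2 : eval s (MvPolynomial.map (Int.castRingHom L) (𝒩 b).N) =
        algebraMap (𝓞 L) L ((eval t (𝒩 b).N : ℤ) : 𝓞 L) := by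
      rw [MvPolynomial.eval_map]
      have h3 := MvPolynomial.eval₂_comp_left (Int.castRingHom L) (RingHom.id ℤ) t (𝒩 b).N
      rw [RingHom.comp_id] at h3
      have h4 : (⇑(Int.castRingHom L) ∘ t) = s := by
        rw [hs]
        rfl
      rw [h4] at h3
      rw [← h3, eq_intCast, map_intCast]
      rfl
    rw [h2] at h1
    have h5 : (v a).valuation L (algebraMap (𝓞 L) L ((eval t (𝒩 b).N : ℤ) : 𝓞 L)) < 1 := by
      rw [(v a).valuation_lt_one_iff_mem]
      obtain ⟨z, hz⟩ := hdvd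
      rw [hz]
      push_cast
      exact Ideal.mul_mem_right _ _ (hpv a)
    rw [h1] at h5
    exact lt_irrefl _ h5
  have hpinj : Function.Injective p := by
    intro a b hab
    by_contra hne
    refine hvNb a b (Ne.symm hne) ?_
    rw [hab]
    exact hpN b
  -- the embedding
  let σ' : L →+* QA := algebraMap L QA
  let σ : L →+* ℂ := rA.comp σ'
  have hσ' : ∀ x, rA (σ' x) = σ x := fun x => rfl
  have hσs : (fun l => σ (s l)) = fun l => (t l : ℂ) := by
    funext l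
    simp [hs, σ]
  have hPs : ∀ a, eval s (P' a) ≠ 0 := fun a => by
    rw [hs]
    exact (𝒩 a).eval_ne t (hN0 a)
  have h1 := hcrit L σ v p hpinj (fun a => ⟨hp a, hQp a, hpv a, hpv2 a⟩) s hsv
    (fun a => eval s (P' a)) (fun a => eval s (E₁' a)) (fun i => eval s (f' i) / eval s (g' i))
    (fun a => ⟨eval_emb (P a) (P' a) (hP' a) s, hPs a, hvP a, fun b hba =>
      hvPb b a (Ne.symm hba)⟩)
    (fun a => ⟨eval_emb (E₁ a) (E₁' a) (hE₁' a) s, hvE a⟩)
    (fun i => ⟨by
      rw [map_div₀]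
      congr 1
      · exact eval_emb (f i) (f' i) (hf' i) s
      · exact eval_emb (g i) (g' i) (hg' i) s, fun a => by
      rw [map_div₀, hvf a i, hvg a i, div_one]⟩)
  rw [hσs] at h1
  refine Concl.mono ?_ h1
  intro γ hγ
  refine ⟨⟨cc γ, hΓL γ hγ⟩, fun a => hX a _ ?_, hcc γ (hΓ γ hγ)⟩
  exact Finset.mem_image.2 ⟨⟨γ, hγ⟩, Finset.mem_attach _ _, rfl⟩

/-- The number of the exceptional integral members. -/
theorem countM (n k r K : ℕ) (hK3 : 3 ≤ K) (hK : k * (k - 1) ≤ K) (κ : Type) [Finite κ] (d₀ : ℕ)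
    (F : κ → MvPolynomial (Fin (n + k) × Bool) (MvPolynomial (Fin r) QA))
    (t₀ : Fin K → Fin r → ℂ) (P : Fin K → MvPolynomial (Fin r) QA) (hP0 : ∀ a, P a ≠ 0)
    (hP : ∀ a f, eval₂Hom rA (t₀ a) f = 0 ↔ P a ∣ f)
    (hF : ∀ a, GM d₀ (eval₂Hom rA (t₀ a)) F)
    (hconj : ∀ a b, a ≠ b → ∀ τ : QA →+* ℂ, eval₂ τ (t₀ a) (P b) ≠ 0)
    (f g : Fin (n + k) → MvPolynomial (Fin r) QA)
    (hf : ∀ a i, eval₂Hom rA (t₀ a) (f i) ≠ 0) (hg : ∀ a i, eval₂Hom rA (t₀ a) (g i) ≠ 0)
    (w : Fin K → Fin n → ℕ) (hw : ∀ a i, 0 < w a i) (c : Fin K → Fin k → ℤ) (hc : Indep c)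
    (Γ : Finset ℂ) (hΓ : ∀ γ ∈ Γ, IsAlgebraic ℚ γ) (ε : ℝ) (hε : 0 < ε) :
    ∃ C : ℝ, 0 < C ∧ ∀ H : ℕ, 1 ≤ H → (({t : Fin r → ℤ | (∀ j, |t j| ≤ H) ∧
      ¬ Concl (Γ : Set ℂ) (memM F f g P w c (fun l => (t l : ℂ)))}.ncard : ℕ) : ℝ) ≤
        C * (H : ℝ) ^ ((r : ℝ) - 1 + ε) := by
  classical
  obtain ⟨j, N, c', Q, hjc, h⟩ :=
    integralM n k r K hK3 hK κ d₀ F t₀ P hP0 hP hF hconj f g hf hg w hw c hc Γ hΓ
  have hr : 1 ≤ r := by
    have := (j ⟨0, by omega⟩).2
    omega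
  choose C hC hcount using fun a => card_core (N a) (j a) (hjc a).1 (c' a) (hjc a).2 Q ε hε
  have hN0 : ∀ a, N a ≠ 0 := by
    intro a h0
    have h1 := (hjc a).1
    rw [h0, MvPolynomial.degreeOf_zero] at h1
    exact lt_irrefl _ h1
  refine ⟨∑ a, (C a + (N a).totalDegree * 3 ^ (r - 1)),
    Finset.sum_pos (fun a _ => by have := hC a; positivity) ⟨⟨0, by omega⟩, Finset.mem_univ _⟩,
    fun H hH => ?_⟩
  have h1 : {t : Fin r → ℤ | (∀ j, |t j| ≤ H) ∧
      ¬ Concl (Γ : Set ℂ) (memM F f g P w c (fun l => (t l : ℂ)))} ⊆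
      ((Finset.univ.biUnion fun a => ((box r H).filter fun t => ∀ p : ℕ, p.Prime → Q < p →
        (p : ℤ) ∣ eval t (N a) → (p : ℤ) ∣ eval (fun i : {i : Fin r // i ≠ j a} => t i) (c' a)) ∪
        ((box r H).filter fun t => eval t (N a) = 0) : Finset (Fin r → ℤ)) :
          Set (Fin r → ℤ)) := by
    rintro t ⟨ht, hbad⟩
    by_contra hcon
    refine hbad (h t fun a => ?_)
    rw [Finset.mem_coe, Finset.mem_biUnion] at hcon
    push Not at hcon
    have h2 := hcon a (Finset.mem_univ a)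
    rw [Finset.mem_union, Finset.mem_filter, Finset.mem_filter, not_or] at h2
    have hbox' := mem_box.2 ht
    refine ⟨fun h3 => h2.2 ⟨hbox', h3⟩, ?_⟩
    by_contra h3
    refine h2.1 ⟨hbox', fun p hp hQp hpN => ?_⟩
    by_contra hpc
    exact h3 ⟨p, hp, hQp, hpN, hpc⟩
  have h2 := (Set.ncard_le_ncard h1 (Finset.finite_toSet _)).trans
    ((Set.ncard_coe_finset _).le.trans Finset.card_biUnion_le)
  have hH1 : (1 : ℝ) ≤ H := by exact_mod_cast hH
  have h3 : ∀ a, ((((box r H).filter fun t => ∀ p : ℕ, p.Prime → Q < p →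
        (p : ℤ) ∣ eval t (N a) → (p : ℤ) ∣ eval (fun i : {i : Fin r // i ≠ j a} => t i) (c' a)) ∪
        ((box r H).filter fun t => eval t (N a) = 0)).card : ℝ) ≤
      (C a + (N a).totalDegree * 3 ^ (r - 1)) * (H : ℝ) ^ ((r : ℝ) - 1 + ε) := by
    intro a
    have h4 := Pool.Agent.Q170.ZP.Count.card_zero (N a) (hN0 a) hr H
    have h5 : ((((box r H).filter fun t => eval t (N a) = 0).card : ℕ) : ℝ) ≤
        ((N a).totalDegree * 3 ^ (r - 1)) * (H : ℝ) ^ ((r : ℝ) - 1 + ε) := by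
      calc ((((box r H).filter fun t => eval t (N a) = 0).card : ℕ) : ℝ) ≤
            (((N a).totalDegree * (2 * H + 1) ^ (r - 1) : ℕ) : ℝ) := by exact_mod_cast h4
        _ = (N a).totalDegree * (2 * (H : ℝ) + 1) ^ (r - 1) := by push_cast; rfl
        _ ≤ (N a).totalDegree * (3 * (H : ℝ)) ^ (r - 1) := by
            refine mul_le_mul_of_nonneg_left ?_ (by positivity)
            exact pow_le_pow_left₀ (by positivity) (by linarith) _
        _ = (N a).totalDegree * 3 ^ (r - 1) * (H : ℝ) ^ (r - 1) := by rw [mul_pow]; ring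
        _ ≤ (N a).totalDegree * 3 ^ (r - 1) * (H : ℝ) ^ ((r : ℝ) - 1 + ε) := by
            refine mul_le_mul_of_nonneg_left ?_ (by positivity)
            rw [← Real.rpow_natCast]
            refine Real.rpow_le_rpow_of_exponent_le hH1 ?_
            rw [Nat.cast_sub hr, Nat.cast_one]
            linarith
    have h6 := hcount a H hH
    calc _ ≤ ((((box r H).filter fun t => ∀ p : ℕ, p.Prime → Q < p →
          (p : ℤ) ∣ eval t (N a) →
            (p : ℤ) ∣ eval (fun i : {i : Fin r // i ≠ j a} => t i) (c' a)).card : ℕ) : ℝ) +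
          ((((box r H).filter fun t => eval t (N a) = 0).card : ℕ) : ℝ) := by
            exact_mod_cast Finset.card_union_le _ _
      _ ≤ _ := by
        rw [add_mul]
        exact add_le_add h6 h5
  calc (({t : Fin r → ℤ | (∀ j, |t j| ≤ H) ∧
        ¬ Concl (Γ : Set ℂ) (memM F f g P w c (fun l => (t l : ℂ)))}.ncard : ℕ) : ℝ)
      ≤ ((∑ a, (((box r H).filter fun t => ∀ p : ℕ, p.Prime → Q < p →
        (p : ℤ) ∣ eval t (N a) → (p : ℤ) ∣ eval (fun i : {i : Fin r // i ≠ j a} => t i) (c' a)) ∪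
        ((box r H).filter fun t => eval t (N a) = 0)).card : ℕ) : ℝ) := by exact_mod_cast h2
    _ = ∑ a, ((((box r H).filter fun t => ∀ p : ℕ, p.Prime → Q < p →
        (p : ℤ) ∣ eval t (N a) → (p : ℤ) ∣ eval (fun i : {i : Fin r // i ≠ j a} => t i) (c' a)) ∪
        ((box r H).filter fun t => eval t (N a) = 0)).card : ℝ) := by push_cast; rfl
    _ ≤ ∑ a, (C a + (N a).totalDegree * 3 ^ (r - 1)) * (H : ℝ) ^ ((r : ℝ) - 1 + ε) :=
        Finset.sum_le_sum fun a _ => h3 a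
    _ = (∑ a, (C a + (N a).totalDegree * 3 ^ (r - 1))) * (H : ℝ) ^ ((r : ℝ) - 1 + ε) := by
        rw [Finset.sum_mul]

end Pool.Agent.Q170.FPM
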